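import Mathlib
import Pool.Agent.X27.CY.Final2

set_option autoImplicit false

/-!
# Twin, cousin and sexy cyclic numbers between consecutive cubes
-/

namespace Pool.Agent.Results.MP_dca572_nt.TwinCousinSexy

open Filter Topology

/-- `m` is a cyclic number: `m` is positive and prime to `φ(m)`. -/
def IsCyclicNumber (m : ℕ) : Prop := 0 < m ∧ Nat.gcd m (Nat.totient m) = 1

/-- The number of the `c` such that `c` and `c + g` are consecutive cyclic numbers with
`n^3 < c < c + g < (n+1)^3`. -/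
noncomputable def T (g n : ℕ) : ℕ := Nat.card {c : ℕ | n ^ 3 < c ∧ c + g < (n + 1) ^ 3 ∧
  IsCyclicNumber c ∧ IsCyclicNumber (c + g) ∧ ∀ d : ℕ, c < d → d < c + g → ¬ IsCyclicNumber d}

/-- `f` is a positive sequence which is regularly varying with index `ρ`. -/
def RegularlyVarying (f : ℕ → ℝ) (ρ : ℝ) : Prop := (∀ n : ℕ, 0 < f n) ∧
  ∀ μ : ℝ, 0 < μ → Tendsto (fun n : ℕ => f ⌊μ * n⌋₊ / f n) atTop (𝓝 (μ ^ ρ))

/-- The twin prime constant `∏_{p > 2} (1 - 1 / (p - 1)^2)`. -/
noncomputable def twinPrimeConstant : ℝ :=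
  ∏' n : ℕ, if n.Prime ∧ 2 < n then 1 - 1 / ((n : ℝ) - 1) ^ 2 else 1

/-- The constant of the asymptotic formula: `6 Π e^(-2γ)` for `g = 2, 4` and `12 Π e^(-2γ)` for
`g = 6`, with `Π` the twin prime constant. -/
noncomputable def kappa (g : ℕ) : ℝ :=
  (if g = 6 then 12 else 6) * twinPrimeConstant * Real.exp (-(2 * Real.eulerMascheroniConstant))

/-- For `g = 2, 4, 6` the number `T g n` of the pairs of consecutive cyclic numbers with difference
`g` between `n^3` and `(n+1)^3` is asymptotic to a sequence which is regularly varying with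
index `2`; in fact `T g n ∼ kappa g * n^2 / (log log log n)^2`. -/
theorem result : ∀ g : ℕ, (g = 2 ∨ g = 4 ∨ g = 6) →
    (∃ f : ℕ → ℝ, RegularlyVarying f 2 ∧ Tendsto (fun n : ℕ => (T g n : ℝ) / f n) atTop (𝓝 1)) ∧
    (0 < kappa g ∧
      Tendsto (fun n : ℕ => (T g n : ℝ) / ((n : ℝ) ^ 2 / Real.log (Real.log (Real.log n)) ^ 2))
        atTop (𝓝 (kappa g))) := by
  intro g hg
  have hT : ∀ n, T g n = (X27.CY.TG g n).card := fun n => X27.CY.TG_card_eq g n
  have hk : kappa g = 3 * X27.CY.Kg g := by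
    unfold kappa X27.CY.Kg X27.CY.eg
    change (if g = 6 then (12 : ℝ) else 6) * X27.CY.twinC * _ = _
    rcases hg with rfl | rfl | rfl
    · rw [if_neg (by norm_num), if_neg (by norm_num)]; ring
    · rw [if_neg (by norm_num), if_neg (by norm_num)]; ring
    · rw [if_pos rfl, if_pos rfl]; ring
  have hpos : 0 < kappa g := by
    rw [hk]
    have := X27.CY.Kg_pos g
    positivity
  have h := X27.CY.TG_asymp hg
  rw [← hk] at h
  refine ⟨⟨X27.CY.fseq (kappa g), ⟨X27.CY.fseq_pos hpos, fun μ hμ => X27.CY.fseq_rv hpos hμ⟩, ?_⟩,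
    hpos, ?_⟩
  · have h2 := X27.CY.fseq_sim hpos h
    refine h2.congr fun n => ?_
    rw [hT]
  · refine h.congr fun n => ?_
    rw [hT, div_div_eq_mul_div]
    rfl

end Pool.Agent.Results.MP_dca572_nt.TwinCousinSexy
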